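import Pool.Agent.Helper89.HY.St3
import Pool.Agent.Helper28.SP.M_NPW
import Pool.Agent.Helper56.SW.M_Sqrt

/-!
# HY3 (MP_e188f1_nt), module TRN: translates
-/

set_option autoImplicit false

noncomputable section

namespace Pool.Agent.Helper33.HY

open Finset Matrix
open Pool.Agent.Helper56.SW (Tm Sm Nq N τ Γ I bx Rel)
open Pool.Agent.Helper28.SP (SG SZ Uu Ll zP red)
open Pool.Agent.Helper28.SP.NPW (EZ Uu_mul Ll_mul Uu_inv Ll_inv rel_iff central)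
open Pool.Agent.Helper89.HY

private theorem grp {G : Type} [Group G] (u0 u2 u4 l0 l2 l4 H1 H2 H3 K1 K2 K3 T1 T2 T3 γ : G)
    (hrel : H3 * K3 * (H2 * K2) * (H1 * K1) = γ) (hc : ∀ x, γ * x = x * γ) :
    (u0 * l0)⁻¹ * 1 * (u0 * H3 * (K3 * l2 * T1⁻¹)) * T1 * (u2 * l2)⁻¹ * 1 * (u2 * H2 * (K2 * l4 * T2⁻¹)) * T2 *
      (u4 * l4)⁻¹ * 1 * (u4 * H1 * (K1 * l0 * T3⁻¹)) * (T3 * γ⁻¹) = 1 := by
  have e : (u0 * l0)⁻¹ * 1 * (u0 * H3 * (K3 * l2 * T1⁻¹)) * T1 * (u2 * l2)⁻¹ * 1 * (u2 * H2 * (K2 * l4 * T2⁻¹)) * T2 *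
      (u4 * l4)⁻¹ * 1 * (u4 * H1 * (K1 * l0 * T3⁻¹)) * (T3 * γ⁻¹) =
      l0⁻¹ * (H3 * K3 * (H2 * K2) * (H1 * K1)) * l0 * γ⁻¹ := by
    group
  rw [e, hrel, mul_assoc l0⁻¹, hc l0, ← mul_assoc l0⁻¹, inv_mul_cancel, one_mul, mul_inv_cancel]

/-- the scalar as a group element -/
private def sc (c : ℕ) (γ : ℕ) : SG c := by
  classical
  exact if h : ((γ : ZMod c) • (1 : Matrix (Fin 2) (Fin 2) (ZMod c))).det = 1 then ⟨_, h⟩ else 1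

private theorem sc_eq {c : ℕ} {a b : ℤ} {γ : ℕ} {l : List (ℤ × ℤ)} (h : Rel c a b (γ : ℤ) l) :
    red c (EZ a b l) = sc c γ ∧ ∀ x : SG c, sc c γ * x = x * sc c γ := by
  have h1 := (rel_iff c a b γ l).1 h
  rw [Int.cast_natCast] at h1
  have hdet : ((γ : ZMod c) • (1 : Matrix (Fin 2) (Fin 2) (ZMod c))).det = 1 := by
    rw [← h1]
    exact (red c (EZ a b l)).2
  have h2 : sc c γ = ⟨_, hdet⟩ := by
    unfold sc
    rw [dif_pos hdet]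
  have h3 : red c (EZ a b l) = sc c γ := by
    rw [h2]
    exact Subtype.ext h1
  refine ⟨h3, ?_⟩
  rw [← h3]
  exact central c _ _ h1

/-- the translates -/
private def tt (B B' : ℕ) (j : ℕ) : ℤ := -(B : ℤ) + B' + (2 * B' + 1) * j

private def jj (B B' : ℕ) (κ : ℤ) : ℕ := ((κ + B) / (2 * B' + 1)).toNat

private theorem cover (B B' : ℕ) (κ : ℤ) (h : κ ∈ I B) :
    jj B B' κ ∈ range (2 * B / (2 * B' + 1) + 1) ∧ κ - tt B B' (jj B B' κ) ∈ I B' := by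
  rw [Pool.Agent.Helper56.SW.mem_I, abs_le] at h ⊢
  obtain ⟨h1, h2⟩ := h
  have hm : (0 : ℤ) < 2 * B' + 1 := by positivity
  obtain ⟨q, hq⟩ : ∃ q : ℤ, q = (κ + B) / (2 * B' + 1) := ⟨_, rfl⟩
  have e1 := Int.emod_add_mul_ediv (κ + B) (2 * B' + 1)
  have e2 := Int.emod_nonneg (κ + B) hm.ne'
  have e3 := Int.emod_lt_of_pos (κ + B) hm
  have hq0 : 0 ≤ q := by rw [hq]; exact Int.ediv_nonneg (by linarith) hm.le
  have hqn : ((jj B B' κ : ℕ) : ℤ) = q := by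
    unfold jj
    rw [← hq, Int.toNat_of_nonneg hq0]
  rw [← hq] at e1
  constructor
  · rw [mem_range]
    have h3 : q ≤ ((2 * B / (2 * B' + 1) : ℕ) : ℤ) := by
      push_cast
      rw [hq]
      exact Int.ediv_le_ediv hm (by linarith)
    have h4 : ((jj B B' κ : ℕ) : ℤ) < ((2 * B / (2 * B' + 1) + 1 : ℕ) : ℤ) := by
      rw [hqn]
      push_cast at h3 ⊢
      linarith
    exact_mod_cast h4
  · unfold tt
    rw [hqn]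
    constructor <;> linarith

private theorem n_le (B B' : ℕ) (h1 : 1 ≤ B') (h2 : B' ≤ B) :
    (((2 * B / (2 * B' + 1) + 1 : ℕ)) : ℝ) ≤ 2 * (B : ℝ) / B' := by
  have hB' : (1 : ℝ) ≤ B' := by exact_mod_cast h1
  have hBB : (B' : ℝ) ≤ B := by exact_mod_cast h2
  have e1 : ((2 * B / (2 * B' + 1) : ℕ) : ℝ) ≤ ((2 * B : ℕ) : ℝ) / ((2 * B' + 1 : ℕ) : ℝ) := Nat.cast_div_le
  push_cast at e1 ⊢
  have e2 : 2 * (B : ℝ) / (2 * B' + 1) ≤ B / B' := by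
    rw [div_le_div_iff₀ (by linarith) (by linarith)]
    nlinarith
  have e3 : 1 ≤ (B : ℝ) / B' := by
    rw [le_div_iff₀ (by linarith)]
    linarith
  have e4 : 2 * (B : ℝ) / B' = B / B' + B / B' := by ring
  rw [e4]
  linarith

/-- the list of a tuple -/
private def Di (t1 t2 t3 : ℤ) (i : Fin 6 → ℕ × ℕ) : List (ℤ × ℤ) :=
  [(((i 5).1 : ℤ) - (i 4).1, ((i 5).2 : ℤ) + t3 - (i 0).2), (((i 3).1 : ℤ) - (i 2).1, ((i 3).2 : ℤ) + t2 - (i 4).2),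
    (((i 1).1 : ℤ) - (i 0).1, ((i 1).2 : ℤ) + t1 - (i 2).2)]

/-- the translating elements -/
private def gg (c : ℕ) (b : ℤ) (γ : ℕ) (t1 t2 t3 : ℤ) : Fin 6 → SG c :=
  ![1, red c (Ll (b * t1)), 1, red c (Ll (b * t2)), 1, red c (Ll (b * t3)) * (sc c γ)⁻¹]

private theorem eqn (c : ℕ) (a b t1 t2 t3 : ℤ) (γ : ℕ) (i : Fin 6 → ℕ × ℕ) (h : Rel c a b (γ : ℤ) (Di t1 t2 t3 i)) :
    (red c (zP a b (i 0)))⁻¹ * gg c b γ t1 t2 t3 0 * red c (zP a b (i 1)) * gg c b γ t1 t2 t3 1 *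
      (red c (zP a b (i 2)))⁻¹ * gg c b γ t1 t2 t3 2 * red c (zP a b (i 3)) * gg c b γ t1 t2 t3 3 *
      (red c (zP a b (i 4)))⁻¹ * gg c b γ t1 t2 t3 4 * red c (zP a b (i 5)) * gg c b γ t1 t2 t3 5 = 1 := by
  obtain ⟨h1, h2⟩ := sc_eq h
  have hU : ∀ x y : ℤ, red c (Uu (x + y)) = red c (Uu x) * red c (Uu y) := fun x y => by
    rw [← Uu_mul, map_mul]
  have hL : ∀ x y : ℤ, red c (Ll (x + y)) = red c (Ll x) * red c (Ll y) := fun x y => by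
    rw [← Ll_mul, map_mul]
  have hLi : ∀ x : ℤ, red c (Ll (-x)) = (red c (Ll x))⁻¹ := fun x => by
    rw [← Ll_inv, map_inv]
  have hz : ∀ p : ℕ × ℕ, red c (zP a b p) = red c (Uu (a * (p.1 : ℤ))) * red c (Ll (b * (p.2 : ℤ))) := fun p => by
    rw [zP, map_mul]
  -- the three long factors
  have f1 : red c (zP a b (i 1)) = red c (Uu (a * ((i 0).1 : ℤ))) * red c (Uu (a * (((i 1).1 : ℤ) - (i 0).1))) *
      (red c (Ll (b * (((i 1).2 : ℤ) + t1 - (i 2).2))) * red c (Ll (b * ((i 2).2 : ℤ))) * (red c (Ll (b * t1)))⁻¹) := by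
    rw [hz, ← hU, ← hLi, ← hL, ← hL]
    congr 3
    · ring
    · ring
  have f3 : red c (zP a b (i 3)) = red c (Uu (a * ((i 2).1 : ℤ))) * red c (Uu (a * (((i 3).1 : ℤ) - (i 2).1))) *
      (red c (Ll (b * (((i 3).2 : ℤ) + t2 - (i 4).2))) * red c (Ll (b * ((i 4).2 : ℤ))) * (red c (Ll (b * t2)))⁻¹) := by
    rw [hz, ← hU, ← hLi, ← hL, ← hL]
    congr 3
    · ring
    · ring
  have f5 : red c (zP a b (i 5)) = red c (Uu (a * ((i 4).1 : ℤ))) * red c (Uu (a * (((i 5).1 : ℤ) - (i 4).1))) *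
      (red c (Ll (b * (((i 5).2 : ℤ) + t3 - (i 0).2))) * red c (Ll (b * ((i 0).2 : ℤ))) * (red c (Ll (b * t3)))⁻¹) := by
    rw [hz, ← hU, ← hLi, ← hL, ← hL]
    congr 3
    · ring
    · ring
  rw [f1, f3, f5, hz (i 0), hz (i 2), hz (i 4)]
  have hrel : red c (Uu (a * (((i 1).1 : ℤ) - (i 0).1))) * red c (Ll (b * (((i 1).2 : ℤ) + t1 - (i 2).2))) *
      (red c (Uu (a * (((i 3).1 : ℤ) - (i 2).1))) * red c (Ll (b * (((i 3).2 : ℤ) + t2 - (i 4).2)))) *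
      (red c (Uu (a * (((i 5).1 : ℤ) - (i 4).1))) * red c (Ll (b * (((i 5).2 : ℤ) + t3 - (i 0).2)))) = sc c γ := by
    rw [← h1]
    unfold Di
    simp only [EZ, map_mul, one_mul]
  exact grp _ _ _ _ _ _ _ _ _ _ _ _ _ _ _ _ hrel h2

/-- the tuples of a list -/
private def ff (t1 t2 t3 : ℤ) (p1 p2 p3 : ℤ × ℤ) (x : (ℕ × ℕ) × (ℕ × ℕ) × (ℕ × ℕ)) : Fin 6 → ℕ × ℕ :=
  ![(x.1.1 + (-p3.1).toNat, x.2.2.2 + (-(p1.2 - t3)).toNat), (x.1.1 + p3.1.toNat, x.1.2 + (p3.2 - t1).toNat),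
    (x.2.1.1 + (-p2.1).toNat, x.1.2 + (-(p3.2 - t1)).toNat), (x.2.1.1 + p2.1.toNat, x.2.1.2 + (p2.2 - t2).toNat),
    (x.2.2.1 + (-p1.1).toNat, x.2.1.2 + (-(p2.2 - t2)).toNat), (x.2.2.1 + p1.1.toNat, x.2.2.2 + (p1.2 - t3).toNat)]

private theorem Di_ff (t1 t2 t3 : ℤ) (p1 p2 p3 : ℤ × ℤ) (x : (ℕ × ℕ) × (ℕ × ℕ) × (ℕ × ℕ)) :
    Di t1 t2 t3 (ff t1 t2 t3 p1 p2 p3 x) = [p1, p2, p3] := by
  unfold Di
  have e0 : ff t1 t2 t3 p1 p2 p3 x 0 = (x.1.1 + (-p3.1).toNat, x.2.2.2 + (-(p1.2 - t3)).toNat) := rfl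
  have e1 : ff t1 t2 t3 p1 p2 p3 x 1 = (x.1.1 + p3.1.toNat, x.1.2 + (p3.2 - t1).toNat) := rfl
  have e2 : ff t1 t2 t3 p1 p2 p3 x 2 = (x.2.1.1 + (-p2.1).toNat, x.1.2 + (-(p3.2 - t1)).toNat) := rfl
  have e3 : ff t1 t2 t3 p1 p2 p3 x 3 = (x.2.1.1 + p2.1.toNat, x.2.1.2 + (p2.2 - t2).toNat) := rfl
  have e4 : ff t1 t2 t3 p1 p2 p3 x 4 = (x.2.2.1 + (-p1.1).toNat, x.2.1.2 + (-(p2.2 - t2)).toNat) := rfl
  have e5 : ff t1 t2 t3 p1 p2 p3 x 5 = (x.2.2.1 + p1.1.toNat, x.2.2.2 + (p1.2 - t3).toNat) := rfl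
  rw [e0, e1, e2, e3, e4, e5]
  have q1 : ∀ (p : ℤ × ℤ) (v w : ℤ), v = p.1 → w = p.2 → (v, w) = p := fun p v w h h' => by rw [h, h']
  have k1 := q1 p1 (((x.2.2.1 + p1.1.toNat : ℕ) : ℤ) - ((x.2.2.1 + (-p1.1).toNat : ℕ) : ℤ))
    (((x.2.2.2 + (p1.2 - t3).toNat : ℕ) : ℤ) + t3 - ((x.2.2.2 + (-(p1.2 - t3)).toNat : ℕ) : ℤ)) (by omega) (by omega)
  have k2 := q1 p2 (((x.2.1.1 + p2.1.toNat : ℕ) : ℤ) - ((x.2.1.1 + (-p2.1).toNat : ℕ) : ℤ))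
    (((x.2.1.2 + (p2.2 - t2).toNat : ℕ) : ℤ) + t2 - ((x.2.1.2 + (-(p2.2 - t2)).toNat : ℕ) : ℤ)) (by omega) (by omega)
  have k3 := q1 p3 (((x.1.1 + p3.1.toNat : ℕ) : ℤ) - ((x.1.1 + (-p3.1).toNat : ℕ) : ℤ))
    (((x.1.2 + (p3.2 - t1).toNat : ℕ) : ℤ) + t1 - ((x.1.2 + (-(p3.2 - t1)).toNat : ℕ) : ℤ)) (by omega) (by omega)
  rw [k1, k2, k3]

private theorem ff_inj (t1 t2 t3 : ℤ) (p1 p2 p3 : ℤ × ℤ) : Function.Injective (ff t1 t2 t3 p1 p2 p3) := by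
  intro x y h
  have h0 : (x.1.1 + (-p3.1).toNat, x.2.2.2 + (-(p1.2 - t3)).toNat) =
      (y.1.1 + (-p3.1).toNat, y.2.2.2 + (-(p1.2 - t3)).toNat) := congrFun h 0
  have h2 : (x.2.1.1 + (-p2.1).toNat, x.1.2 + (-(p3.2 - t1)).toNat) =
      (y.2.1.1 + (-p2.1).toNat, y.1.2 + (-(p3.2 - t1)).toNat) := congrFun h 2
  have h4 : (x.2.2.1 + (-p1.1).toNat, x.2.1.2 + (-(p2.2 - t2)).toNat) =
      (y.2.2.1 + (-p1.1).toNat, y.2.1.2 + (-(p2.2 - t2)).toNat) := congrFun h 4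
  rw [Prod.mk.injEq] at h0 h2 h4
  obtain ⟨⟨x1, x2⟩, ⟨x3, x4⟩, ⟨x5, x6⟩⟩ := x
  obtain ⟨⟨y1, y2⟩, ⟨y3, y4⟩, ⟨y5, y6⟩⟩ := y
  simp only at h0 h2 h4
  simp only [Prod.mk.injEq]
  omega

open Classical in
/-- one class of lists -/
private theorem class_le (c : ℕ) (a b : ℤ) (A B B' γ j1 j2 j3 : ℕ) :
    (((bx (I A) (I B) 3).filter (fun l => Rel c a b (γ : ℤ) l ∧ ∃ p1 p2 p3 : ℤ × ℤ, l = [p1, p2, p3] ∧
      p3.2 - tt B B' j1 ∈ I B' ∧ p2.2 - tt B B' j2 ∈ I B' ∧ p1.2 - tt B B' j3 ∈ I B')).card : ℕ) *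
      ((A + 1) * (B' + 1)) ^ 3 ≤
    FF (range (2 * A + 1) ×ˢ range (2 * B' + 1))
      (fun i : ℕ × ℕ => (red c (zP a b i) : SG c)) (gg c b γ (tt B B' j1) (tt B B' j2) (tt B B' j3)) := by
  obtain ⟨t1, ht1⟩ : ∃ t1 : ℤ, t1 = tt B B' j1 := ⟨_, rfl⟩
  obtain ⟨t2, ht2⟩ : ∃ t2 : ℤ, t2 = tt B B' j2 := ⟨_, rfl⟩
  obtain ⟨t3, ht3⟩ : ∃ t3 : ℤ, t3 = tt B B' j3 := ⟨_, rfl⟩
  rw [← ht1, ← ht2, ← ht3]
  set S := (bx (I A) (I B) 3).filter (fun l => Rel c a b (γ : ℤ) l ∧ ∃ p1 p2 p3 : ℤ × ℤ, l = [p1, p2, p3] ∧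
      p3.2 - t1 ∈ I B' ∧ p2.2 - t2 ∈ I B' ∧ p1.2 - t3 ∈ I B') with hS
  unfold FF
  set U := (Fintype.piFinset fun _ : Fin 6 => (range (2 * A + 1) ×ˢ range (2 * B' + 1) : Finset (ℕ × ℕ))).filter
    fun i : Fin 6 → ℕ × ℕ =>
    (red c (zP a b (i 0)))⁻¹ * gg c b γ t1 t2 t3 0 * red c (zP a b (i 1)) * gg c b γ t1 t2 t3 1 *
      (red c (zP a b (i 2)))⁻¹ * gg c b γ t1 t2 t3 2 * red c (zP a b (i 3)) * gg c b γ t1 t2 t3 3 *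
      (red c (zP a b (i 4)))⁻¹ * gg c b γ t1 t2 t3 4 * red c (zP a b (i 5)) * gg c b γ t1 t2 t3 5 = 1 with hU
  have hfib : ∀ l ∈ S, ((A + 1) * (B' + 1)) ^ 3 ≤ (U.filter (fun i => Di t1 t2 t3 i = l)).card := by
    intro l hl
    rw [hS, mem_filter, Pool.Agent.Helper56.SW.mem_bx] at hl
    obtain ⟨⟨_, hmem⟩, hrel, p1, p2, p3, rfl, q3, q2, q1⟩ := hl
    have m1 := hmem p1 (by simp)
    have m2 := hmem p2 (by simp)
    have m3 := hmem p3 (by simp)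
    rw [Pool.Agent.Helper56.SW.mem_I, abs_le] at q1 q2 q3
    have n1 := m1.1
    have n2 := m2.1
    have n3 := m3.1
    rw [Pool.Agent.Helper56.SW.mem_I, abs_le] at n1 n2 n3
    have hcard : ((A + 1) * (B' + 1)) ^ 3 = ((range (A + 1) ×ˢ range (B' + 1)) ×ˢ
        (range (A + 1) ×ˢ range (B' + 1)) ×ˢ (range (A + 1) ×ˢ range (B' + 1))).card := by
      simp only [card_product, card_range]
      ring
    rw [hcard]
    refine card_le_card_of_injOn (ff t1 t2 t3 p1 p2 p3) ?_ ((ff_inj t1 t2 t3 p1 p2 p3).injOn)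
    intro x hx
    have hx' := Finset.mem_coe.1 hx
    simp only [mem_product, mem_range] at hx'
    obtain ⟨⟨x1, x2⟩, ⟨x3, x4⟩, x5, x6⟩ := hx'
    have hD := Di_ff t1 t2 t3 p1 p2 p3 x
    refine Finset.mem_coe.2 (mem_filter.2 ⟨?_, hD⟩)
    rw [hU, mem_filter]
    refine ⟨?_, eqn c a b t1 t2 t3 γ _ (by rw [hD]; exact hrel)⟩
    rw [Fintype.mem_piFinset]
    intro k
    rw [mem_product, mem_range, mem_range]
    fin_cases k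
    · show x.1.1 + (-p3.1).toNat < _ ∧ x.2.2.2 + (-(p1.2 - t3)).toNat < _
      omega
    · show x.1.1 + p3.1.toNat < _ ∧ x.1.2 + (p3.2 - t1).toNat < _
      omega
    · show x.2.1.1 + (-p2.1).toNat < _ ∧ x.1.2 + (-(p3.2 - t1)).toNat < _
      omega
    · show x.2.1.1 + p2.1.toNat < _ ∧ x.2.1.2 + (p2.2 - t2).toNat < _
      omega
    · show x.2.2.1 + (-p1.1).toNat < _ ∧ x.2.1.2 + (-(p2.2 - t2)).toNat < _
      omega
    · show x.2.2.1 + p1.1.toNat < _ ∧ x.2.2.2 + (p1.2 - t3).toNat < _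
      omega
  have h1 : S.card * ((A + 1) * (B' + 1)) ^ 3 ≤ ∑ l ∈ S, (U.filter (fun i => Di t1 t2 t3 i = l)).card := by
    rw [← smul_eq_mul, ← Finset.sum_const]
    exact Finset.sum_le_sum hfib
  refine h1.trans ?_
  have h2 := Finset.sum_card_fiberwise_eq_card_filter U S (Di t1 t2 t3)
  rw [h2]
  refine (card_le_card (filter_subset (fun i => Di t1 t2 t3 i ∈ S) U)).trans (le_of_eq ?_)
  rw [hU]
  congr!

/-- Module TRN. -/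
theorem hTRN : StTRN := by
  classical
  intro c a b A B B' X hc hA hB' hBB hX hF
  obtain ⟨n, hn⟩ : ∃ n : ℕ, n = 2 * B / (2 * B' + 1) + 1 := ⟨_, rfl⟩
  obtain ⟨K, hK⟩ : ∃ K : Finset (ℕ × ℕ × ℕ × ℕ), K = Γ c ×ˢ range n ×ˢ range n ×ˢ range n := ⟨_, rfl⟩
  obtain ⟨Sk, hSk⟩ : ∃ Sk : ℕ × ℕ × ℕ × ℕ → Finset (List (ℤ × ℤ)), Sk = fun k =>
    (bx (I A) (I B) 3).filter (fun l => Rel c a b ((k.1 : ℕ) : ℤ) l ∧ ∃ p1 p2 p3 : ℤ × ℤ, l = [p1, p2, p3] ∧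
      p3.2 - tt B B' k.2.1 ∈ I B' ∧ p2.2 - tt B B' k.2.2.1 ∈ I B' ∧ p1.2 - tt B B' k.2.2.2 ∈ I B') := ⟨_, rfl⟩
  have hcov : N c a b 3 A B ≤ ∑ k ∈ K, (Sk k).card := by
    unfold N
    refine (card_le_card (t := K.biUnion Sk) ?_).trans card_biUnion_le
    intro l hl
    rw [mem_filter] at hl
    obtain ⟨hlb, γ, hγ, hrel⟩ := hl
    have hmb := hlb
    rw [Pool.Agent.Helper56.SW.mem_bx] at hmb
    obtain ⟨hlen, hmem⟩ := hmb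
    obtain ⟨p1, p2, p3, rfl⟩ := List.length_eq_three.1 hlen
    have m1 := cover B B' p1.2 (hmem p1 (by simp)).2
    have m2 := cover B B' p2.2 (hmem p2 (by simp)).2
    have m3 := cover B B' p3.2 (hmem p3 (by simp)).2
    rw [← hn] at m1 m2 m3
    rw [mem_biUnion]
    refine ⟨(γ, jj B B' p3.2, jj B B' p2.2, jj B B' p1.2), ?_, ?_⟩
    · rw [hK]
      exact mem_product.2 ⟨hγ, mem_product.2 ⟨m3.1, mem_product.2 ⟨m2.1, m1.1⟩⟩⟩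
    · rw [hSk]
      exact mem_filter.2 ⟨hlb, hrel, p1, p2, p3, rfl, m3.2, m2.2, m1.2⟩
  have hone : ∀ k ∈ K, ((Sk k).card : ℝ) * (((A : ℝ) + 1) * ((B' : ℝ) + 1)) ^ 3 ≤ X := by
    intro k _
    have h := class_le c a b A B B' k.1 k.2.1 k.2.2.1 k.2.2.2
    rw [hSk]
    refine le_trans (le_of_eq ?_) (((Nat.cast_le (α := ℝ)).2 h).trans (hF _))
    push_cast
    ring
  have hR : 0 ≤ (((A : ℝ) + 1) * ((B' : ℝ) + 1)) ^ 3 := by positivity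
  have h1 : (N c a b 3 A B : ℝ) * (((A : ℝ) + 1) * ((B' : ℝ) + 1)) ^ 3 ≤ K.card * X := by
    have e1 : (N c a b 3 A B : ℝ) ≤ ∑ k ∈ K, ((Sk k).card : ℝ) := by exact_mod_cast hcov
    refine (mul_le_mul_of_nonneg_right e1 hR).trans ?_
    rw [Finset.sum_mul]
    refine (Finset.sum_le_sum hone).trans ?_
    rw [Finset.sum_const, nsmul_eq_mul]
  refine h1.trans ?_
  have hcard : (K.card : ℝ) ≤ (2 * (B : ℝ) / B') ^ 3 * (2 * τ c) := by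
    have e1 : (K.card : ℝ) = (n : ℝ) ^ 3 * ((Γ c).card : ℝ) := by
      rw [hK]
      simp only [card_product, card_range]
      push_cast
      ring
    rw [e1]
    have e2 : (n : ℝ) ≤ 2 * (B : ℝ) / B' := by
      rw [hn]
      exact n_le B B' hB' hBB
    have e3 := Pool.Agent.Helper56.SW.stSqrt c hc
    exact mul_le_mul (pow_le_pow_left₀ (Nat.cast_nonneg _) e2 3) e3 (Nat.cast_nonneg _) (by positivity)
  exact mul_le_mul_of_nonneg_right hcard hX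

end Pool.Agent.Helper33.HY
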